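import Mathlib
import Pool.Agent.Results.MP_47bc22_lc.KurepaCoanalytic
import Pool.Agent.R582.KA.Force

set_option autoImplicit false

/-!
# MP_47bc22_lc: it is consistent that the set of codes of Kurepa trees is nonempty and `Δ¹₂`

The proof is a two step forcing construction. A Kurepa family (a family of more than `ℵ₁` subsets
of `ω₁` with countably many traces on every countable ordinal) can be forced; then Martin's axiom
for `ℵ₁` dense sets can be forced by a ccc forcing, which keeps the Kurepa family; and Martin's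
axiom and a Kurepa family give that `𝒦` is nonempty and `Π¹₁`.
-/

namespace Pool.Agent.Results.MP_47bc22_lc.ConsistentlyDelta

open Cardinal Set Pool.Agent.H995R3.Kurepa Pool.Agent.R582.KA

theorem family (o : Ordinal.{0}) (ho : o = (ℵ₁ : Cardinal.{0}).ord) (h : Kur) :
    ∃ (U : Type) (u : U → Set o.ToType), Function.Injective u ∧ ℵ₁ < #U ∧
      ∀ j, (range fun s => u s ∩ Iio j).Countable := by
  subst ho
  exact kur_iff.1 h

theorem regular_kurepa (h : Kur) : ∃ R : Om → Om → Prop, IsKurepa R ∧ IsRegular R := by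
  obtain ⟨U, u, h1, h2, h3⟩ := family _ (Cardinal.ord_aleph 1).symm h
  refine main KurepaCoanalytic.like_Om KurepaCoanalytic.mk_Om h1 ?_ h3
  have h4 : (aleph 2 : Cardinal.{0}) = Order.succ (aleph 1) := by
    rw [succ_aleph]
    congr 1
    norm_num
  rw [h4, Order.succ_le_iff]
  exact h2

theorem ma_of (h : Pool.Agent.W684.FM.MartinFor Pool.Agent.W684.FM.Om1) : MartinAxiomAleph1 := by
  rw [Pool.Agent.W684.FM.martinFor_om1_iff] at h
  intro P _ _ hc 𝒟 h1 h2
  exact h P hc 𝒟 h1 h2

/-- (1) Some notion of forcing forces the statement `Pool.Agent.R590.Kur.Hypothesis` (over any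
ground model), and (2) this statement implies `Kur`: there is a Kurepa family on `ω₁`.
(3) If there is a Kurepa family, then some notion of forcing forces that `ω₁` is preserved, that
Martin's axiom for `ℵ₁` dense sets holds, and that there is a Kurepa family. (4) If Martin's axiom
for `ℵ₁` dense sets holds and there is a Kurepa family, then the set `𝒦` of codes of regular Kurepa
trees on `ω₁` is nonempty and `Δ¹₂`, and even `Π¹₁`. -/
theorem result :
    (∃ (Q : Type) (_ : Preorder Q), Nonempty Q ∧
      ∀ q : Q, q ∈ Pool.Agent.R590.Kur.HypothesisN Q) ∧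
    (Pool.Agent.R590.Kur.Hypothesis → Kur) ∧
    (Kur → ∃ (P : Type) (_ : Preorder P), Nonempty P ∧ ∀ p : P,
      p ∈ Pool.Agent.W684.FM.OmegaOnePreserved P ∧
      p ∈ Pool.Agent.W684.FM.MartinHolds P Pool.Agent.W684.FM.Om1 ∧ p ∈ KurN P) ∧
    (Pool.Agent.W684.FM.MartinFor Pool.Agent.W684.FM.Om1 → Kur →
      ∀ (e : Om × Om ≃ Om) (zero one : Om), zero ≠ one →
        (kurepaCodes e zero one).Nonempty ∧ IsDelta12 Om (kurepaCodes e zero one) ∧
        IsPi11 Om (kurepaCodes e zero one)) := by
  refine ⟨Pool.Agent.R590.Kur.exists_forcing, kur_of_hypothesis, exists_forcing, ?_⟩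
  intro hMA hK e zero one h01
  obtain ⟨h1, h2, h3⟩ := KurepaCoanalytic.result (ma_of hMA) e zero one h01
  exact ⟨h3 (regular_kurepa hK), h2, h1⟩

end Pool.Agent.Results.MP_47bc22_lc.ConsistentlyDelta
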